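import Pool.Agent.Y649.ETR.Stm

/-!
# Wreath products: `W_Y ≤ W_Δ` (project ETR, job ETR-WSTAR; helper777)
-/

set_option autoImplicit false

namespace Pool.Agent.Y777.ETRW

open Finset Pool.Agent.Results.MP_44674b_co.WreathExact Pool.Agent.Y649.ETR

variable {X Y : Type} [Fintype X] [DecidableEq X] [Fintype Y] [DecidableEq Y] {d e : ℕ}

lemma bm_iff' {c : X → X → Fin (d + 1)} {M : Matrix X X ℂ} :
    M ∈ boseMesner c ↔ ∀ x y x' y', c x y = c x' y' → M x y = M x' y' := by
  classical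
  rw [bm_iff]
  constructor
  · rintro ⟨φ, h⟩ x y x' y' hc
    rw [h, h, hc]
  · intro h
    refine ⟨fun i => if hi : ∃ p : X × X, c p.1 p.2 = i then M hi.choose.1 hi.choose.2 else 0,
      fun x y => ?_⟩
    have hi : ∃ p : X × X, c p.1 p.2 = c x y := ⟨(x, y), rfl⟩
    simp only [dif_pos hi]
    exact h _ _ _ _ hi.choose_spec.symm

lemma wdelta_iff' {c : X → X → Fin (d + 1)} {T : X → X → X → ℂ} :
    T ∈ WDelta c ↔ ∀ x y z x' y' z', c x y = c x' y' → c x z = c x' z' → c y z = c y' z' →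
      T x y z = T x' y' z' := by
  classical
  rw [wdelta_iff]
  constructor
  · rintro ⟨φ, h⟩ x y z x' y' z' h1 h2 h3
    rw [h, h, h1, h2, h3]
  · intro h
    refine ⟨fun i j k => if hi : ∃ p : X × X × X, c p.1 p.2.1 = i ∧ c p.1 p.2.2 = j ∧
      c p.2.1 p.2.2 = k then T hi.choose.1 hi.choose.2.1 hi.choose.2.2 else 0,
      fun x y z => ?_⟩
    have hi : ∃ p : X × X × X, c p.1 p.2.1 = c x y ∧ c p.1 p.2.2 = c x z ∧
      c p.2.1 p.2.2 = c y z := ⟨(x, y, z), rfl, rfl, rfl⟩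
    simp only [dif_pos hi]
    exact h _ _ _ _ _ _ hi.choose_spec.1.symm hi.choose_spec.2.1.symm hi.choose_spec.2.2.symm

/-- inner matrices -/
def inn (Y : Type) [DecidableEq Y] (A : Matrix X X ℂ) : Matrix (X × Y) (X × Y) ℂ :=
  fun p q => if p.2 = q.2 then A p.1 q.1 else 0

/-- outer matrices -/
def out (X : Type) (B : Matrix Y Y ℂ) : Matrix (X × Y) (X × Y) ℂ := fun p q => B p.2 q.2

lemma wrc_eq (c : X → X → Fin (d + 1)) (T : SymScheme Y e) {p q p' q' : X × Y}
    (h : wrc c T.c p q = wrc c T.c p' q') :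
    (p.2 = q.2 ∧ p'.2 = q'.2 ∧ c p.1 q.1 = c p'.1 q'.1) ∨
      (p.2 ≠ q.2 ∧ p'.2 ≠ q'.2 ∧ T.c p.2 q.2 = T.c p'.2 q'.2) := by
  have key : ∀ y y' : Y, y ≠ y' → 0 < (T.c y y').val := by
    intro y y' hy
    rcases Nat.eq_zero_or_pos (T.c y y').val with h0 | h0
    · exact absurd ((T.diag y y').1 (Fin.ext h0)) hy
    · exact h0
  unfold wrc at h
  by_cases h1 : p.2 = q.2 <;> by_cases h2 : p'.2 = q'.2
  · left
    rw [if_pos h1, if_pos h2] at h
    refine ⟨h1, h2, ?_⟩
    rw [Fin.ext_iff] at h ⊢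
    simpa using h
  · rw [if_pos h1, if_neg h2, Fin.ext_iff] at h
    have h3 := key _ _ h2
    have h4 := (c p.1 q.1).isLt
    simp only [Fin.val_castLE] at h
    omega
  · rw [if_neg h1, if_pos h2, Fin.ext_iff] at h
    have h3 := key _ _ h1
    have h4 := (c p'.1 q'.1).isLt
    simp only [Fin.val_castLE] at h
    omega
  · right
    rw [if_neg h1, if_neg h2, Fin.ext_iff] at h
    refine ⟨h1, h2, Fin.ext ?_⟩
    simp only at h
    omega

lemma wrc_snd (c : X → X → Fin (d + 1)) (T : SymScheme Y e) {p q p' q' : X × Y}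
    (h : wrc c T.c p q = wrc c T.c p' q') : T.c p.2 q.2 = T.c p'.2 q'.2 := by
  rcases wrc_eq c T h with ⟨h1, h2, _⟩ | ⟨_, _, h3⟩
  · rw [(T.diag _ _).2 h1, (T.diag _ _).2 h2]
  · exact h3

lemma wrc_iff (c : X → X → Fin (d + 1)) (T : SymScheme Y e) {p q p' q' : X × Y}
    (h : wrc c T.c p q = wrc c T.c p' q') : p.2 = q.2 ↔ p'.2 = q'.2 := by
  rcases wrc_eq c T h with ⟨h1, h2, _⟩ | ⟨h1, h2, _⟩
  · exact ⟨fun _ => h2, fun _ => h1⟩
  · exact ⟨fun h => absurd h h1, fun h => absurd h h2⟩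

lemma wrc_fst (c : X → X → Fin (d + 1)) (T : SymScheme Y e) {p q p' q' : X × Y}
    (h : wrc c T.c p q = wrc c T.c p' q') (h1 : p.2 = q.2) : c p.1 q.1 = c p'.1 q'.1 := by
  rcases wrc_eq c T h with ⟨_, _, h2⟩ | ⟨h2, _, _⟩
  · exact h2
  · exact absurd h1 h2

lemma inn_mem (c : X → X → Fin (d + 1)) (T : SymScheme Y e) {A : Matrix X X ℂ}
    (hA : A ∈ boseMesner c) : inn Y A ∈ boseMesner (wrc c T.c) := by
  rw [bm_iff'] at hA ⊢
  intro p q p' q' h
  unfold inn
  by_cases h1 : p.2 = q.2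
  · rw [if_pos h1, if_pos ((wrc_iff c T h).1 h1)]
    exact hA _ _ _ _ (wrc_fst c T h h1)
  · rw [if_neg h1, if_neg (fun h2 => h1 ((wrc_iff c T h).2 h2))]

lemma out_mem (c : X → X → Fin (d + 1)) (T : SymScheme Y e) {B : Matrix Y Y ℂ}
    (hB : B ∈ boseMesner T.c) : out X B ∈ boseMesner (wrc c T.c) := by
  rw [bm_iff'] at hB ⊢
  intro p q p' q' h
  exact hB _ _ _ _ (wrc_snd c T h)

lemma decomp (c : X → X → Fin (d + 1)) (T : SymScheme Y e) [Nonempty Y]
    {L : Matrix (X × Y) (X × Y) ℂ}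
    (hL : L ∈ boseMesner (wrc c T.c)) :
    ∃ A ∈ boseMesner c, ∃ B ∈ boseMesner T.c, L = inn Y A + out X B := by
  classical
  obtain ⟨φ, hφ⟩ := bm_iff.1 hL
  refine ⟨fun x y => φ (Fin.castLE (by omega) (c x y)), bm_iff.2 ⟨fun i => φ (Fin.castLE (by omega) i), fun x y => rfl⟩,
    fun y y' => if y = y' then 0 else
      φ ⟨d + (T.c y y').val, by have := (T.c y y').isLt; omega⟩, ?_, ?_⟩
  · rw [bm_iff']
    intro y y' z z' h
    by_cases h1 : y = y'
    · have h2 : z = z' := by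
        rw [← T.diag, ← h, T.diag]
        exact h1
      rw [if_pos h1, if_pos h2]
    · have h2 : z ≠ z' := by
        intro h2
        rw [← T.diag, ← h, T.diag] at h2
        exact h1 h2
      rw [if_neg h1, if_neg h2]
      congr 2
      rw [h]
  · ext p q
    rw [hφ, Matrix.add_apply]
    unfold inn out wrc
    by_cases h1 : p.2 = q.2
    · simp [h1]
    · simp [h1]

lemma rowsum (S : SymScheme X d) {A : Matrix X X ℂ} (hA : A ∈ boseMesner S.c) (p p' : X) :
    ∑ x, A p x = ∑ x, A p' x := by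
  classical
  obtain ⟨φ, hφ⟩ := bm_iff.1 hA
  have key : ∀ p : X, ∑ x, A p x = ∑ i, ((univ.filter fun z => S.c p z = i).card : ℂ) * φ i := by
    intro p
    rw [← Finset.sum_fiberwise univ (fun x => S.c p x)]
    refine Finset.sum_congr rfl fun i _ => ?_
    rw [← nsmul_eq_mul, ← Finset.sum_const]
    refine Finset.sum_congr rfl fun x hx => ?_
    rw [hφ, (Finset.mem_filter.1 hx).2]
  rw [key, key]
  refine Finset.sum_congr rfl fun i _ => ?_
  have h1 : ∀ p : X, (univ.filter fun z => S.c p z = i) =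
      univ.filter fun z => S.c p z = i ∧ S.c z p = i := by
    intro p
    ext z
    simp only [mem_filter, mem_univ, true_and]
    rw [S.symm z p]
    tauto
  rw [h1 p, h1 p', S.regular i i p p p' p' (by rw [(S.diag p p).2 rfl, (S.diag p' p').2 rfl])]

lemma pairsum (S : SymScheme X d) {A B : Matrix X X ℂ} (hA : A ∈ boseMesner S.c)
    (hB : B ∈ boseMesner S.c) {p q p' q' : X} (h : S.c p q = S.c p' q') :
    ∑ x, A p x * B q x = ∑ x, A p' x * B q' x := by
  classical
  obtain ⟨φ, hφ⟩ := bm_iff.1 hA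
  obtain ⟨ψ, hψ⟩ := bm_iff.1 hB
  have key : ∀ p q : X, ∑ x, A p x * B q x = ∑ i, ∑ j,
      ((univ.filter fun z => S.c p z = i ∧ S.c z q = j).card : ℂ) * (φ i * ψ j) := by
    intro p q
    rw [← Finset.sum_fiberwise univ (fun x => S.c p x)]
    refine Finset.sum_congr rfl fun i _ => ?_
    rw [← Finset.sum_fiberwise _ (fun x => S.c x q)]
    refine Finset.sum_congr rfl fun j _ => ?_
    rw [Finset.filter_filter, ← nsmul_eq_mul, ← Finset.sum_const]
    refine Finset.sum_congr rfl fun x hx => ?_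
    obtain ⟨_, h1, h2⟩ := Finset.mem_filter.1 hx
    rw [hφ, hψ, h1, S.symm q x, h2]
  rw [key, key]
  refine Finset.sum_congr rfl fun i _ => Finset.sum_congr rfl fun j _ => ?_
  rw [S.regular i j p q p' q' h]

lemma sd {Z : Type} [Fintype Z] (L M N : Matrix Z Z ℂ) (x y z : Z) :
    Pool.Agent.Results.MP_44674b_co.WreathExact.Star L M N x y z =
      ∑ u, L x u * M y u * N z u := rfl

lemma star_add₁ {Z : Type} [Fintype Z] (L L' M N : Matrix Z Z ℂ) :
    Star (L + L') M N = Star L M N + Star L' M N := by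
  funext x y z
  simp only [sd, Pi.add_apply, Matrix.add_apply, ← Finset.sum_add_distrib]
  exact Finset.sum_congr rfl fun u _ => by ring

lemma star_add₂ {Z : Type} [Fintype Z] (L M M' N : Matrix Z Z ℂ) :
    Star L (M + M') N = Star L M N + Star L M' N := by
  funext x y z
  simp only [sd, Pi.add_apply, Matrix.add_apply, ← Finset.sum_add_distrib]
  exact Finset.sum_congr rfl fun u _ => by ring

lemma star_add₃ {Z : Type} [Fintype Z] (L M N N' : Matrix Z Z ℂ) :
    Star L M (N + N') = Star L M N + Star L M N' := by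
  funext x y z
  simp only [sd, Pi.add_apply, Matrix.add_apply, ← Finset.sum_add_distrib]
  exact Finset.sum_congr rfl fun u _ => by ring

lemma s_ooo (A B C : Matrix Y Y ℂ) (p q r : X × Y) :
    Star (out X A) (out X B) (out X C) p q r =
      (Fintype.card X : ℂ) * Star A B C p.2 q.2 r.2 := by
  simp only [sd, out, Fintype.sum_prod_type]
  rw [Finset.sum_const, card_univ, nsmul_eq_mul]

lemma s_iii (A B C : Matrix X X ℂ) (p q r : X × Y) :
    Star (inn Y A) (inn Y B) (inn Y C) p q r =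
      if p.2 = q.2 ∧ p.2 = r.2 then Star A B C p.1 q.1 r.1 else 0 := by
  simp only [sd, inn, Fintype.sum_prod_type]
  split_ifs with h
  · obtain ⟨h1, h2⟩ := h
    refine Finset.sum_congr rfl fun x _ => ?_
    rw [Finset.sum_eq_single p.2]
    · rw [← h1, ← h2]; simp
    · intro y _ hy
      rw [if_neg (Ne.symm hy)]; simp
    · simp
  · refine Finset.sum_eq_zero fun x _ => Finset.sum_eq_zero fun y _ => ?_
    by_cases h1 : p.2 = y
    · by_cases h2 : q.2 = y
      · by_cases h3 : r.2 = y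
        · exact absurd ⟨h1.trans h2.symm, h1.trans h3.symm⟩ h
        · rw [if_neg h3, mul_zero]
      · rw [if_neg h2]; simp
    · rw [if_neg h1]; simp

lemma s_ioo (A : Matrix X X ℂ) (B C : Matrix Y Y ℂ) (p q r : X × Y) :
    Star (inn Y A) (out X B) (out X C) p q r =
      (∑ x, A p.1 x) * (B q.2 p.2 * C r.2 p.2) := by
  simp only [sd, inn, out, Fintype.sum_prod_type]
  rw [Finset.sum_mul]
  refine Finset.sum_congr rfl fun x _ => ?_
  rw [Finset.sum_eq_single p.2]
  · simp; ring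
  · intro y _ hy
    rw [if_neg (Ne.symm hy)]; simp
  · simp

lemma s_oio (A : Matrix X X ℂ) (B C : Matrix Y Y ℂ) (p q r : X × Y) :
    Star (out X B) (inn Y A) (out X C) p q r =
      (∑ x, A q.1 x) * (B p.2 q.2 * C r.2 q.2) := by
  simp only [sd, inn, out, Fintype.sum_prod_type]
  rw [Finset.sum_mul]
  refine Finset.sum_congr rfl fun x _ => ?_
  rw [Finset.sum_eq_single q.2]
  · simp; ring
  · intro y _ hy
    rw [if_neg (Ne.symm hy)]; simp
  · simp

lemma s_ooi (A : Matrix X X ℂ) (B C : Matrix Y Y ℂ) (p q r : X × Y) :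
    Star (out X B) (out X C) (inn Y A) p q r =
      (∑ x, A r.1 x) * (B p.2 r.2 * C q.2 r.2) := by
  simp only [sd, inn, out, Fintype.sum_prod_type]
  rw [Finset.sum_mul]
  refine Finset.sum_congr rfl fun x _ => ?_
  rw [Finset.sum_eq_single r.2]
  · simp; ring
  · intro y _ hy
    rw [if_neg (Ne.symm hy)]; simp
  · simp

lemma s_iio (A B : Matrix X X ℂ) (C : Matrix Y Y ℂ) (p q r : X × Y) :
    Star (inn Y A) (inn Y B) (out X C) p q r =
      if p.2 = q.2 then (∑ x, A p.1 x * B q.1 x) * C r.2 p.2 else 0 := by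
  simp only [sd, inn, out, Fintype.sum_prod_type]
  split_ifs with h
  · rw [Finset.sum_mul]
    refine Finset.sum_congr rfl fun x _ => ?_
    rw [Finset.sum_eq_single p.2]
    · simp [← h]
    · intro y _ hy
      rw [if_neg (Ne.symm hy)]; simp
    · simp
  · refine Finset.sum_eq_zero fun x _ => Finset.sum_eq_zero fun y _ => ?_
    by_cases h1 : p.2 = y
    · have h2 : ¬ q.2 = y := fun h2 => h (h1.trans h2.symm)
      rw [if_neg h2]; simp
    · rw [if_neg h1]; simp

lemma s_ioi (A B : Matrix X X ℂ) (C : Matrix Y Y ℂ) (p q r : X × Y) :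
    Star (inn Y A) (out X C) (inn Y B) p q r =
      if p.2 = r.2 then (∑ x, A p.1 x * B r.1 x) * C q.2 p.2 else 0 := by
  simp only [sd, inn, out, Fintype.sum_prod_type]
  split_ifs with h
  · rw [Finset.sum_mul]
    refine Finset.sum_congr rfl fun x _ => ?_
    rw [Finset.sum_eq_single p.2]
    · simp [← h]; ring
    · intro y _ hy
      rw [if_neg (Ne.symm hy)]; simp
    · simp
  · refine Finset.sum_eq_zero fun x _ => Finset.sum_eq_zero fun y _ => ?_
    by_cases h1 : p.2 = y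
    · have h2 : ¬ r.2 = y := fun h2 => h (h1.trans h2.symm)
      rw [if_neg h2]; simp
    · rw [if_neg h1]; simp

lemma s_oii (A B : Matrix X X ℂ) (C : Matrix Y Y ℂ) (p q r : X × Y) :
    Star (out X C) (inn Y A) (inn Y B) p q r =
      if q.2 = r.2 then (∑ x, A q.1 x * B r.1 x) * C p.2 q.2 else 0 := by
  simp only [sd, inn, out, Fintype.sum_prod_type]
  split_ifs with h
  · rw [Finset.sum_mul]
    refine Finset.sum_congr rfl fun x _ => ?_
    rw [Finset.sum_eq_single q.2]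
    · simp [← h]; ring
    · intro y _ hy
      rw [if_neg (Ne.symm hy)]; simp
    · simp
  · refine Finset.sum_eq_zero fun x _ => Finset.sum_eq_zero fun y _ => ?_
    by_cases h1 : q.2 = y
    · have h2 : ¬ r.2 = y := fun h2 => h (h1.trans h2.symm)
      rw [if_neg h2]; simp
    · rw [if_neg h1]; simp

theorem main : S_WSTAR := by
  classical
  intro X Y _ _ _ _ d e S T
  obtain ⟨x0, _, _⟩ := S.surj 0
  obtain ⟨y0, _, _⟩ := T.surj 0
  haveI : Nonempty Y := ⟨y0⟩
  have hX : (Fintype.card X : ℂ) ≠ 0 := by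
    haveI : Nonempty X := ⟨x0⟩
    exact Nat.cast_ne_zero.2 Fintype.card_ne_zero
  constructor
  · intro h
    refine ⟨Submodule.span_le.2 ?_, Submodule.span_le.2 ?_⟩
    · rintro _ ⟨L, hL, M, hM, N, hN, rfl⟩
      have h1 := h (star_mem (inn_mem S.c T hL) (inn_mem S.c T hM) (inn_mem S.c T hN))
      rw [wdelta_iff'] at h1
      rw [SetLike.mem_coe, wdelta_iff']
      intro x y z x' y' z' hxy hxz hyz
      have h2 := h1 (x, y0) (y, y0) (z, y0) (x', y0) (y', y0) (z', y0)
        (by simp [wrc, hxy]) (by simp [wrc, hxz]) (by simp [wrc, hyz])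
      rw [s_iii, s_iii] at h2
      simpa using h2
    · rintro _ ⟨L, hL, M, hM, N, hN, rfl⟩
      have h1 := h (star_mem (out_mem S.c T hL) (out_mem S.c T hM) (out_mem S.c T hN))
      rw [wdelta_iff'] at h1
      rw [SetLike.mem_coe, wdelta_iff']
      intro x y z x' y' z' hxy hxz hyz
      have key : ∀ a b a' b' : Y, T.c a b = T.c a' b' →
          wrc S.c T.c (x0, a) (x0, b) = wrc S.c T.c (x0, a') (x0, b') := by
        intro a b a' b' hab
        have h3 : a = b ↔ a' = b' := by rw [← T.diag, hab, T.diag]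
        unfold wrc
        by_cases h4 : a = b
        · simp [h4, h3.1 h4]
        · have h5 : a' ≠ b' := fun h5 => h4 (h3.2 h5)
          simp [h4, h5, hab]
      have h2 := h1 (x0, x) (x0, y) (x0, z) (x0, x') (x0, y') (x0, z')
        (key _ _ _ _ hxy) (key _ _ _ _ hxz) (key _ _ _ _ hyz)
      rw [s_ooo, s_ooo] at h2
      exact mul_left_cancel₀ hX h2
  · rintro ⟨hS, hT⟩
    refine Submodule.span_le.2 ?_
    rintro _ ⟨L, hL, M, hM, N, hN, rfl⟩
    obtain ⟨A1, hA1, B1, hB1, rfl⟩ := decomp S.c T hL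
    obtain ⟨A2, hA2, B2, hB2, rfl⟩ := decomp S.c T hM
    obtain ⟨A3, hA3, B3, hB3, rfl⟩ := decomp S.c T hN
    have bT : ∀ {B : Matrix Y Y ℂ}, B ∈ boseMesner T.c → ∀ {a b a' b' : Y},
        T.c a b = T.c a' b' → B b a = B b' a' := by
      intro B hB a b a' b' hab
      exact bm_iff'.1 hB _ _ _ _ (by rw [T.symm b a, T.symm b' a', hab])
    have bT' : ∀ {B : Matrix Y Y ℂ}, B ∈ boseMesner T.c → ∀ {a b a' b' : Y},
        T.c a b = T.c a' b' → B a b = B a' b' := by
      intro B hB a b a' b' hab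
      exact bm_iff'.1 hB _ _ _ _ hab
    rw [SetLike.mem_coe, star_add₁, star_add₂, star_add₂, star_add₃, star_add₃, star_add₃,
      star_add₃]
    refine Submodule.add_mem _ (Submodule.add_mem _ (Submodule.add_mem _ ?_ ?_)
      (Submodule.add_mem _ ?_ ?_)) (Submodule.add_mem _ (Submodule.add_mem _ ?_ ?_)
      (Submodule.add_mem _ ?_ ?_))
    · rw [wdelta_iff']
      intro p q r p' q' r' hpq hpr hqr
      rw [s_iii, s_iii]
      have i1 := wrc_iff _ _ hpq
      have i2 := wrc_iff _ _ hpr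
      by_cases h : p.2 = q.2 ∧ p.2 = r.2
      · rw [if_pos h, if_pos ⟨i1.1 h.1, i2.1 h.2⟩]
        have h3 := hS (star_mem hA1 hA2 hA3)
        rw [wdelta_iff'] at h3
        exact h3 _ _ _ _ _ _ (wrc_fst _ _ hpq h.1) (wrc_fst _ _ hpr h.2)
          (wrc_fst _ _ hqr (h.1.symm.trans h.2))
      · rw [if_neg h, if_neg (fun h4 => h ⟨i1.2 h4.1, i2.2 h4.2⟩)]
    · rw [wdelta_iff']
      intro p q r p' q' r' hpq hpr hqr
      rw [s_iio, s_iio]
      have i1 := wrc_iff _ _ hpq
      by_cases h : p.2 = q.2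
      · rw [if_pos h, if_pos (i1.1 h), pairsum S hA1 hA2 (wrc_fst _ _ hpq h),
          bT hB3 (wrc_snd _ _ hpr)]
      · rw [if_neg h, if_neg (fun h4 => h (i1.2 h4))]
    · rw [wdelta_iff']
      intro p q r p' q' r' hpq hpr hqr
      rw [s_ioi, s_ioi]
      have i1 := wrc_iff _ _ hpr
      by_cases h : p.2 = r.2
      · rw [if_pos h, if_pos (i1.1 h), pairsum S hA1 hA3 (wrc_fst _ _ hpr h),
          bT hB2 (wrc_snd _ _ hpq)]
      · rw [if_neg h, if_neg (fun h4 => h (i1.2 h4))]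
    · rw [wdelta_iff']
      intro p q r p' q' r' hpq hpr hqr
      rw [s_ioo, s_ioo, rowsum S hA1 p.1 p'.1, bT hB2 (wrc_snd _ _ hpq),
        bT hB3 (wrc_snd _ _ hpr)]
    · rw [wdelta_iff']
      intro p q r p' q' r' hpq hpr hqr
      rw [s_oii, s_oii]
      have i1 := wrc_iff _ _ hqr
      by_cases h : q.2 = r.2
      · rw [if_pos h, if_pos (i1.1 h), pairsum S hA2 hA3 (wrc_fst _ _ hqr h),
          bT' hB1 (wrc_snd _ _ hpq)]
      · rw [if_neg h, if_neg (fun h4 => h (i1.2 h4))]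
    · rw [wdelta_iff']
      intro p q r p' q' r' hpq hpr hqr
      rw [s_oio, s_oio, rowsum S hA2 q.1 q'.1, bT' hB1 (wrc_snd _ _ hpq),
        bT hB3 (wrc_snd _ _ hqr)]
    · rw [wdelta_iff']
      intro p q r p' q' r' hpq hpr hqr
      rw [s_ooi, s_ooi, rowsum S hA3 r.1 r'.1, bT' hB1 (wrc_snd _ _ hpr),
        bT' hB2 (wrc_snd _ _ hqr)]
    · rw [wdelta_iff']
      intro p q r p' q' r' hpq hpr hqr
      rw [s_ooo, s_ooo]
      have h3 := hT (star_mem hB1 hB2 hB3)
      rw [wdelta_iff'] at h3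
      rw [h3 _ _ _ _ _ _ (wrc_snd _ _ hpq) (wrc_snd _ _ hpr) (wrc_snd _ _ hqr)]

end Pool.Agent.Y777.ETRW
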